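import Pool.Agent.Q264.SP3

/-!
# Salem numbers of degree 6 with arbitrarily long preperiods

For even `k ≥ 6` the Salem number with minimal polynomial
`x^6 - k x^5 + (2k-2) x^4 - (2k-1) x^3 + (2k-2) x^2 - k x + 1` has preperiod length `2 k - 4` and
period length `2 k`. (Below `k = 2 j`.)
-/

set_option autoImplicit false

namespace Pool.Agent.Results.MP_e4c55d_nt.UnboundedPreperiod

open Polynomial

/-- `T_β^n(1)`, with `T_β(x) = β x - ⌊β x⌋` -/
noncomputable def rem (β : ℝ) : ℕ → ℝ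
  | 0 => 1
  | n + 1 => β * rem β n - ⌊β * rem β n⌋

/-- the digit `t_n = ⌊β T_β^(n-1)(1)⌋`, for `n ≥ 1` -/
noncomputable def digit (β : ℝ) (n : ℕ) : ℤ := ⌊β * rem β (n - 1)⌋

/-- `t_(n+p) = t_n` for all `n > m` -/
def PerAt (β : ℝ) (m p : ℕ) : Prop := ∀ n : ℕ, m < n → digit β (n + p) = digit β n

/-- the expansion is eventually periodic, with preperiod length `m` and period length `p`: the pair
`(m, p)` is admissible and both are least possible -/
def IsPreperiodPeriod (β : ℝ) (m p : ℕ) : Prop :=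
  1 ≤ p ∧ PerAt β m p ∧ ∀ m' p' : ℕ, 1 ≤ p' → PerAt β m' p' → m ≤ m' ∧ p ≤ p'

/-- Salem numbers -/
def IsSalem (β : ℝ) : Prop :=
  1 < β ∧ IsIntegral ℤ β ∧
    (∀ z : ℂ, aeval z (minpoly ℤ β) = 0 → z ≠ (β : ℂ) → ‖z‖ ≤ 1) ∧
    ∃ z : ℂ, aeval z (minpoly ℤ β) = 0 ∧ z ≠ (β : ℂ) ∧ ‖z‖ = 1

lemma rem_eq (β : ℝ) (n : ℕ) : rem β n = Q264.Salem6.rem β n := by
  induction n with
  | zero => rfl
  | succ n ih => simp only [rem, Q264.Salem6.rem, ih]

lemma digit_eq (β : ℝ) (n : ℕ) : digit β n = Q264.Salem6.digit β n := by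
  unfold digit Q264.Salem6.digit
  rw [rem_eq]

lemma perAt_iff (β : ℝ) (m p : ℕ) : PerAt β m p ↔ Q264.Salem6.PerAt β m p := by
  unfold PerAt Q264.Salem6.PerAt
  constructor
  · intro h n hn
    have := h (n + m) (by omega)
    rw [digit_eq, digit_eq] at this
    exact this.symm
  · intro h n hn
    have := h (n - m) (by omega)
    rw [show n - m + m = n from by omega] at this
    rw [digit_eq, digit_eq]
    exact this.symm

theorem result :
    (∀ k : ℕ, 6 ≤ k → Even k → ∃ β : ℝ, IsSalem β ∧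
      minpoly ℚ β = X ^ 6 - C (k : ℚ) * X ^ 5 + C (2 * k - 2 : ℚ) * X ^ 4 -
        C (2 * k - 1 : ℚ) * X ^ 3 + C (2 * k - 2 : ℚ) * X ^ 2 - C (k : ℚ) * X + 1 ∧
      IsPreperiodPeriod β (2 * k - 4) (2 * k)) ∧
    ∀ N : ℕ, ∃ β : ℝ, IsSalem β ∧ (minpoly ℚ β).natDegree = 6 ∧
      ∃ m p : ℕ, IsPreperiodPeriod β m p ∧ N < m := by
  have key : ∀ k : ℕ, 6 ≤ k → Even k → ∃ β : ℝ, IsSalem β ∧
      minpoly ℚ β = X ^ 6 - C (k : ℚ) * X ^ 5 + C (2 * k - 2 : ℚ) * X ^ 4 -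
        C (2 * k - 1 : ℚ) * X ^ 3 + C (2 * k - 2 : ℚ) * X ^ 2 - C (k : ℚ) * X + 1 ∧
      IsPreperiodPeriod β (2 * k - 4) (2 * k) := by
    rintro k hk ⟨j, hj⟩
    have hj3 : 3 ≤ j := by omega
    obtain ⟨β, h1, hβ⟩ := Q264.SP.exists_beta j hj3
    have hS := Q264.SP.isSalem hj3 hβ h1
    obtain ⟨hp, hper, hmin⟩ := Q264.SP.exact hj3 hβ h1
    refine ⟨β, hS, ?_, ?_⟩
    · rw [minpoly.isIntegrallyClosed_eq_field_fractions' ℚ hS.2.1, Q264.SP.minpoly_eq hβ]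
      have hkj : (k : ℚ) = 2 * j := by rw [hj]; push_cast; ring
      unfold Q264.SP.PZ
      simp only [Polynomial.map_add, Polynomial.map_mul, Polynomial.map_pow, Polynomial.map_X,
        Polynomial.map_C, algebraMap_int_eq, eq_intCast (Int.castRingHom ℚ)]
      push_cast
      rw [hkj]
      simp only [map_sub, map_mul, map_neg, map_ofNat, map_one]
      ring
    · rw [show 2 * k - 4 = 4 * j - 4 from by omega, show 2 * k = 4 * j from by omega]
      refine ⟨hp, (perAt_iff _ _ _).2 hper, fun m' p' hp' h => hmin m' p' hp' ?_⟩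
      exact (perAt_iff _ _ _).1 h
  refine ⟨key, fun N => ?_⟩
  obtain ⟨β, hS, hm, hp⟩ := key (2 * (N + 3)) (by omega) ⟨N + 3, by ring⟩
  refine ⟨β, hS, ?_, _, _, hp, by omega⟩
  rw [hm]
  compute_degree!

end Pool.Agent.Results.MP_e4c55d_nt.UnboundedPreperiod
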